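import Mathlib

/-!
The Erdos-Gallai inequalities for the multiset of edge imbalances.
-/

set_option autoImplicit false

namespace Pool.Agent.K6.H54.Imb

open Finset

variable {V : Type} [Fintype V] [DecidableEq V] (G : SimpleGraph V) [DecidableRel G.Adj]

/-- The imbalance `|deg u - deg v|` of the pair `uv`. -/
def imb : Sym2 V → ℕ :=
  Sym2.lift ⟨fun u v => ((G.degree u : ℤ) - (G.degree v : ℤ)).natAbs, fun u v => by
    show ((G.degree u : ℤ) - (G.degree v : ℤ)).natAbs = ((G.degree v : ℤ) - (G.degree u : ℤ)).natAbs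
    omega⟩

omit [DecidableEq V] in
@[simp] lemma imb_mk (u v : V) :
    imb G s(u, v) = ((G.degree u : ℤ) - (G.degree v : ℤ)).natAbs := rfl

/-- arithmetic of the main case -/
lemma arith (k D f q e : ℤ) (hf : 1 ≤ f) (hfk : f ≤ k) (hD : k + 1 ≤ D) (hq0 : 0 ≤ q)
    (hq : q ≤ D - f) (he : 4 * e ≤ q ^ 2) :
    k * (D - k) ≤ k * (D - f - q) + q * (D - 1) - (k - f) - e := by
  have key : e ≤ (k - 1) * (k - f) + q * (D - 1 - k) := by
    rcases eq_or_lt_of_le (show (0 : ℤ) ≤ D - 1 - k by linarith) with hp | hp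
    · -- `D = k + 1`
      rcases eq_or_lt_of_le (show (0 : ℤ) ≤ k - f by linarith) with hr | hr
      · have hq1 : q ≤ 1 := by linarith
        have : q ^ 2 ≤ 1 := by nlinarith
        have h4 : e ≤ 0 := by linarith
        rw [← hp, ← hr]
        linarith
      · have h1 : q ≤ 1 + (k - f) := by linarith
        have h2 : q ^ 2 ≤ (2 * (k - f)) ^ 2 := by
          apply pow_le_pow_left₀ hq0
          linarith
        rw [← hp]
        nlinarith [mul_nonneg hr.le (show (0 : ℤ) ≤ f - 1 by linarith)]
    · by_cases h4 : q ≤ 4 * (D - 1 - k)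
      · nlinarith [mul_nonneg hq0 (sub_nonneg.2 h4),
          mul_nonneg (show (0 : ℤ) ≤ k - 1 by linarith) (show (0 : ℤ) ≤ k - f by linarith)]
      · push Not at h4
        have h1 : q ≤ 2 * (k - f) := by linarith
        have h2 : q ^ 2 ≤ (2 * (k - f)) ^ 2 := pow_le_pow_left₀ hq0 h1 2
        nlinarith [mul_nonneg (show (0 : ℤ) ≤ k - f by linarith) (show (0 : ℤ) ≤ f - 1 by linarith),
          mul_nonneg hq0 hp.le]
  nlinarith

omit [Fintype V] in
lemma card_filter_mem_le_two (S : Finset V) (g : Sym2 V) : (S.filter (· ∈ g)).card ≤ 2 := by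
  induction g using Sym2.ind with
  | _ a b =>
    refine (card_le_card (t := {a, b}) ?_).trans Finset.card_le_two
    intro x hx
    simp only [mem_filter, Sym2.mem_iff] at hx
    simpa using hx.2

omit [Fintype V] in
lemma bad_le (W : Finset V) (h : V → ℕ) (B : Finset (Sym2 V))
    (hB : ∀ g ∈ B, ∃ x ∈ W, ∃ y ∈ W, g = s(x, y) ∧ Even (h x) ∧ ¬ Even (h y)) :
    4 * B.card ≤ W.card ^ 2 := by
  have h1 : B ⊆ ((W.filter fun x => Even (h x)) ×ˢ (W.filter fun x => ¬ Even (h x))).image
      fun p => s(p.1, p.2) := by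
    intro g hg
    obtain ⟨x, hx, y, hy, rfl, h2, h3⟩ := hB g hg
    rw [mem_image]
    exact ⟨(x, y), by simp only [mem_product, mem_filter]; exact ⟨⟨hx, h2⟩, hy, h3⟩, rfl⟩
  have h2 := (card_le_card h1).trans card_image_le
  rw [card_product] at h2
  have h3 := Finset.card_filter_add_card_filter_not (s := W) (fun x => Even (h x))
  rw [← h3]
  nlinarith [sq_nonneg (((W.filter fun x => Even (h x)).card : ℤ) -
    ((W.filter fun x => ¬ Even (h x)).card : ℤ)),
    four_mul_le_sq_add (W.filter fun x => Even (h x)).card (W.filter fun x => ¬ Even (h x)).card]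

lemma concl (k D f q b n sF sS sQ i d A Fw S sW : ℤ) (hf : 1 ≤ f) (hD : k + 1 ≤ D)
    (hq0 : 0 ≤ q) (hqn : q ≤ n) (hn : n + f = D) (hb : 4 * b ≤ q ^ 2)
    (h1 : sF ≤ k * (D - 1)) (h2 : q * D ≤ i + d) (h3 : d = A + Fw + q) (h4 : sW = A)
    (h5 : Fw + f ≤ k) (h6 : 0 ≤ Fw) (h7 : sS + sQ ≤ S) (h8 : k * (n - q) + i ≤ sS)
    (h9 : sW ≤ sQ + b) : sF ≤ k * (k - 1) + S := by
  have har := arith k D f q b hf (by linarith) hD hq0 (by linarith) hb
  have hn' : n = D - f := by linarith
  rw [hn'] at h8
  have e1 : k * (D - f - q) + q * (D - 1) - (k - f) - b ≤ S := by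
    have : q * (D - 1) = q * D - q := by ring
    linarith
  nlinarith

theorem main_case (hpos : ∀ e ∈ G.edgeFinset, 0 < imb G e) (F : Finset (Sym2 V))
    (hF : F ⊆ G.edgeFinset) (hne : F.Nonempty) (hk : ∀ e ∈ F, F.card ≤ imb G e) :
    ∑ e ∈ F, (imb G e : ℤ) ≤ F.card * (F.card - 1) +
      ∑ e ∈ G.edgeFinset \ F, (min (imb G e) F.card : ℕ) := by
  set k := F.card with hkdef
  have hkpos : 0 < k := hne.card_pos
  -- the vertex of maximum degree
  set T : Finset V := univ.filter fun x => ∃ e ∈ F, x ∈ e with hT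
  have hTne : T.Nonempty := by
    obtain ⟨e, he⟩ := hne
    induction e using Sym2.ind with
    | _ a b => exact ⟨a, by simp only [hT, mem_filter, mem_univ, true_and]; exact ⟨_, he, by simp⟩⟩
  obtain ⟨u, huT, humax⟩ := Finset.exists_max_image T (fun x => G.degree x) hTne
  set D := G.degree u with hDdef
  have hdegle : ∀ e ∈ F, ∀ x ∈ e, G.degree x ≤ D := by
    intro e he x hx
    exact humax x (by simp only [hT, mem_filter, mem_univ, true_and]; exact ⟨e, he, hx⟩)
  have himb : ∀ e ∈ F, imb G e + 1 ≤ D := by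
    intro e he
    induction e using Sym2.ind with
    | _ a b =>
      have h1 := hdegle _ he a (by simp)
      have h2 := hdegle _ he b (by simp)
      have hadj : G.Adj a b := by simpa using hF he
      have h3 : 0 < G.degree a := (G.degree_pos_iff_exists_adj a).2 ⟨b, hadj⟩
      have h4 : 0 < G.degree b := (G.degree_pos_iff_exists_adj b).2 ⟨a, hadj.symm⟩
      rw [imb_mk]
      omega
  have hDk : k + 1 ≤ D := by
    obtain ⟨e, he⟩ := hne
    have := himb e he
    have := hk e he
    omega
  -- sets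
  set Fu : Finset (Sym2 V) := F.filter (u ∈ ·) with hFu
  set f := Fu.card with hfdef
  have hf1 : 1 ≤ f := by
    have h1 : ∃ e ∈ F, u ∈ e := by simpa [hT] using huT
    obtain ⟨e, he, hue⟩ := h1
    exact Finset.card_pos.2 ⟨e, by simp only [hFu, mem_filter]; exact ⟨he, hue⟩⟩
  set N' : Finset V := (G.neighborFinset u).filter fun w => s(u, w) ∉ F with hN'
  have hinj : Function.Injective fun w : V => s(u, w) := by
    intro a b hab
    rcases Sym2.eq_iff.1 hab with ⟨-, h⟩ | ⟨h1, h2⟩
    · exact h
    · exact h2.trans h1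
  have hN'card : N'.card + f = D := by
    have h1 : ((G.neighborFinset u).filter fun w => s(u, w) ∈ F).card + N'.card =
        (G.neighborFinset u).card :=
      Finset.card_filter_add_card_filter_not (s := G.neighborFinset u) (fun w => s(u, w) ∈ F)
    have h2 : ((G.neighborFinset u).filter fun w => s(u, w) ∈ F).card = f := by
      rw [hfdef, ← Finset.card_image_of_injective _ hinj]
      congr 1
      ext e
      simp only [mem_image, mem_filter, SimpleGraph.mem_neighborFinset, hFu]
      constructor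
      · rintro ⟨w, ⟨h3, h4⟩, rfl⟩
        exact ⟨h4, by simp⟩
      · rintro ⟨h3, h4⟩
        obtain ⟨w, rfl⟩ := Sym2.mem_iff_exists.1 h4
        exact ⟨w, ⟨by simpa using hF h3, h3⟩, rfl⟩
    rw [SimpleGraph.card_neighborFinset_eq_degree, h2] at h1
    omega
  set W : Finset V := N'.filter fun w => imb G s(u, w) < k with hW
  have huW : u ∉ W := by
    simp [hW, hN']
  have hWadj : ∀ w ∈ W, G.Adj u w ∧ s(u, w) ∉ F ∧ imb G s(u, w) < k := by
    intro w hw
    simp only [hW, hN', mem_filter, SimpleGraph.mem_neighborFinset] at hw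
    exact ⟨hw.1.1, hw.1.2, hw.2⟩
  set Q : Finset (Sym2 V) := (G.edgeFinset \ F).filter fun g => u ∉ g ∧ ∃ w ∈ W, w ∈ g with hQ
  -- lower bound of the sum over the complement of `F`
  set c : Sym2 V → ℤ := fun e => ((min (imb G e) k : ℕ) : ℤ) with hc
  have hS : ∑ g ∈ N'.image (fun w => s(u, w)), c g + ∑ g ∈ Q, c g ≤ ∑ g ∈ G.edgeFinset \ F, c g := by
    rw [← Finset.sum_union]
    · apply Finset.sum_le_sum_of_subset_of_nonneg
      · intro g hg
        rw [mem_union] at hg
        rcases hg with hg | hg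
        · obtain ⟨w, hw, rfl⟩ := mem_image.1 hg
          simp only [hN', mem_filter, SimpleGraph.mem_neighborFinset] at hw
          rw [mem_sdiff]
          exact ⟨by simpa using hw.1, hw.2⟩
        · exact (mem_filter.1 hg).1
      · intro g _ _
        simp [hc]
    · rw [Finset.disjoint_left]
      intro g hg hg'
      obtain ⟨w, hw, rfl⟩ := mem_image.1 hg
      exact (mem_filter.1 hg').2.1 (by simp)
  have hstar : (k : ℤ) * (N'.card - W.card) + ∑ w ∈ W, (imb G s(u, w) : ℤ) ≤
      ∑ g ∈ N'.image (fun w => s(u, w)), c g := by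
    rw [Finset.sum_image (fun a _ b _ h => hinj h)]
    rw [← Finset.sum_filter_add_sum_filter_not N' (fun w => imb G s(u, w) < k)]
    rw [add_comm]
    apply add_le_add
    · apply Finset.sum_le_sum
      intro w hw
      have := (hWadj w hw).2.2
      simp only [hc]
      rw [min_eq_left this.le]
    · have h1 : ∀ w ∈ N'.filter (fun w => ¬ imb G s(u, w) < k), c s(u, w) = k := by
        intro w hw
        have := (mem_filter.1 hw).2
        simp only [hc]
        rw [min_eq_right (not_lt.1 this)]
      rw [Finset.sum_congr rfl h1, Finset.sum_const, nsmul_eq_mul, mul_comm]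
      have h2 := Finset.card_filter_add_card_filter_not (s := N') (fun w => imb G s(u, w) < k)
      have h3 : (N'.filter (fun w => ¬ imb G s(u, w) < k)).card + W.card = N'.card := by
        rw [hW]; omega
      have h4 : ((N'.filter (fun w => ¬ imb G s(u, w) < k)).card : ℤ) = N'.card - W.card := by
        omega
      rw [h4]
  -- the sum over `Q`
  set B : Finset (Sym2 V) := Q.filter fun g => (W.filter (· ∈ g)).card = 2 ∧ imb G g = 1 with hB
  have hQsum : ∑ g ∈ Q, ((W.filter (· ∈ g)).card : ℤ) ≤ ∑ g ∈ Q, c g + B.card := by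
    rw [hB, Finset.card_filter]
    push_cast
    rw [← Finset.sum_add_distrib]
    apply Finset.sum_le_sum
    intro g hg
    have hg' := mem_filter.1 hg
    have h1 := card_filter_mem_le_two W g
    have h2 : 0 < imb G g := hpos g (mem_sdiff.1 hg'.1).1
    obtain ⟨w, hw, hwg⟩ := hg'.2.2
    have h3 : 0 < imb G s(u, w) := hpos _ (by simpa using (hWadj w hw).1)
    have h4 := (hWadj w hw).2.2
    simp only [hc]
    split_ifs with h5
    · rw [h5.1, h5.2]
      have : min 1 k = 1 := by omega
      rw [this]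
      norm_num
    · have h6 : (W.filter (· ∈ g)).card ≤ min (imb G g) k := by
        rw [le_min_iff]
        constructor
        · by_contra h7
          apply h5
          omega
        · omega
      have : ((W.filter (· ∈ g)).card : ℤ) ≤ ((min (imb G g) k : ℕ) : ℤ) := by exact_mod_cast h6
      linarith
  have hQcount : ∑ g ∈ Q, (W.filter (· ∈ g)).card = ∑ w ∈ W, (Q.filter (w ∈ ·)).card := by
    simp only [Finset.card_filter]
    rw [Finset.sum_comm]
  have hQw : ∀ w ∈ W, (Q.filter (w ∈ ·)).card + (F.filter (w ∈ ·)).card + 1 = G.degree w := by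
    intro w hw
    have hadj := (hWadj w hw).1
    have h1 : G.incidenceFinset w = insert s(u, w) (Q.filter (w ∈ ·) ∪ F.filter (w ∈ ·)) := by
      ext g
      simp only [SimpleGraph.mem_incidenceFinset, mem_insert, mem_union, mem_filter, hQ,
        mem_sdiff, SimpleGraph.mem_edgeFinset]
      constructor
      · intro hg
        have hg1 : g ∈ G.edgeSet := hg.1
        have hg2 : w ∈ g := hg.2
        by_cases h2 : g ∈ F
        · exact Or.inr (Or.inr ⟨h2, hg2⟩)
        · by_cases h3 : u ∈ g
          · left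
            exact ((Sym2.mem_and_mem_iff hadj.ne).1 ⟨h3, hg2⟩)
          · exact Or.inr (Or.inl ⟨⟨⟨hg1, h2⟩, h3, w, hw, hg2⟩, hg2⟩)
      · rintro (rfl | ⟨h2, h3⟩ | ⟨h2, h3⟩)
        · exact ⟨by simpa using hadj, by simp⟩
        · exact ⟨h2.1.1, h3⟩
        · exact ⟨by simpa using hF h2, h3⟩
    have h2 : s(u, w) ∉ Q.filter (w ∈ ·) ∪ F.filter (w ∈ ·) := by
      simp only [mem_union, mem_filter, hQ, not_or, not_and]
      refine ⟨fun h => absurd (show u ∈ s(u, w) by simp) h.2.1, fun h => absurd h (hWadj w hw).2.1⟩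
    have h3 : Disjoint (Q.filter (w ∈ ·)) (F.filter (w ∈ ·)) := by
      rw [Finset.disjoint_left]
      intro g hg hg'
      simp only [mem_filter, hQ, mem_sdiff] at hg hg'
      exact hg.1.1.2 hg'.1
    have h4 := congrArg Finset.card h1
    rw [Finset.card_insert_of_notMem h2, Finset.card_union_of_disjoint h3,
      SimpleGraph.card_incidenceFinset_eq_degree] at h4
    exact h4.symm
  -- few edges of `F` at `W`
  have hFW : ∑ w ∈ W, (F.filter (w ∈ ·)).card + f ≤ k := by
    have h1 : ∑ x ∈ insert u W, (F.filter (x ∈ ·)).card = f + ∑ w ∈ W, (F.filter (w ∈ ·)).card := by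
      rw [Finset.sum_insert huW]
    have h2 : ∑ x ∈ insert u W, (F.filter (x ∈ ·)).card =
        ∑ e ∈ F, ((insert u W).filter (· ∈ e)).card := by
      simp only [Finset.card_filter]
      rw [Finset.sum_comm]
    have h3 : ∑ e ∈ F, ((insert u W).filter (· ∈ e)).card ≤ ∑ e ∈ F, 1 := by
      apply Finset.sum_le_sum
      intro e he
      rw [Finset.card_le_one]
      intro x hx y hy
      by_contra hxy
      rw [mem_filter] at hx hy
      have hexy : e = s(x, y) := (Sym2.mem_and_mem_iff hxy).1 ⟨hx.2, hy.2⟩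
      have hlow : ∀ z ∈ insert u W, D < G.degree z + k := by
        intro z hz
        rw [mem_insert] at hz
        rcases hz with rfl | hz
        · omega
        · have := (hWadj z hz).2.2
          rw [imb_mk] at this
          omega
      have h4 := hlow x hx.1
      have h5 := hlow y hy.1
      have h6 := hdegle e he x hx.2
      have h7 := hdegle e he y hy.2
      have h8 := hk e he
      rw [hexy, imb_mk] at h8
      omega
    rw [Finset.sum_const, smul_eq_mul, mul_one] at h3
    omega
  -- the bad edges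
  have hBcard : 4 * B.card ≤ W.card ^ 2 := by
    apply bad_le W (fun x => G.degree x) B
    intro g hg
    obtain ⟨hgQ, hg2, hg1⟩ := mem_filter.1 hg
    obtain ⟨x, y, hxy, hxyeq⟩ := Finset.card_eq_two.1 hg2
    have hx : x ∈ W.filter (· ∈ g) := by rw [hxyeq]; simp
    have hy : y ∈ W.filter (· ∈ g) := by rw [hxyeq]; simp
    rw [mem_filter] at hx hy
    have hgeq : g = s(x, y) := (Sym2.mem_and_mem_iff hxy).1 ⟨hx.2, hy.2⟩
    rw [hgeq, imb_mk] at hg1
    by_cases hev : Even (G.degree x)
    · refine ⟨x, hx.1, y, hy.1, hgeq, hev, ?_⟩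
      intro hev2
      obtain ⟨a, ha⟩ := hev
      obtain ⟨b, hb⟩ := hev2
      omega
    · refine ⟨y, hy.1, x, hx.1, by rw [hgeq, Sym2.eq_swap], ?_, hev⟩
      rw [Nat.not_even_iff_odd] at hev
      obtain ⟨a, ha⟩ := hev
      by_contra hev2
      rw [Nat.not_even_iff_odd] at hev2
      obtain ⟨b, hb⟩ := hev2
      omega
  -- conclusion
  have hWN : W.card ≤ N'.card := card_le_card (filter_subset _ _)
  have hsumle : ∑ e ∈ F, (imb G e : ℤ) ≤ (k : ℤ) * ((D : ℤ) - 1) := by
    calc ∑ e ∈ F, (imb G e : ℤ) ≤ ∑ e ∈ F, ((D : ℤ) - 1) := by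
          apply Finset.sum_le_sum
          intro e he
          have := himb e he
          omega
      _ = k * (D - 1) := by rw [Finset.sum_const, nsmul_eq_mul]
  have hW1 : (W.card : ℤ) * D ≤ ∑ w ∈ W, (imb G s(u, w) : ℤ) + ∑ w ∈ W, (G.degree w : ℤ) := by
    rw [← Finset.sum_add_distrib]
    calc (W.card : ℤ) * D = ∑ w ∈ W, (D : ℤ) := by rw [Finset.sum_const, nsmul_eq_mul]
      _ ≤ _ := by
        apply Finset.sum_le_sum
        intro w _
        rw [imb_mk]
        omega
  have hW2 : ∑ w ∈ W, (G.degree w : ℤ) = ∑ w ∈ W, ((Q.filter (w ∈ ·)).card : ℤ) +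
      ∑ w ∈ W, ((F.filter (w ∈ ·)).card : ℤ) + W.card := by
    have : ∀ w ∈ W, (G.degree w : ℤ) = ((Q.filter (w ∈ ·)).card : ℤ) +
        ((F.filter (w ∈ ·)).card : ℤ) + 1 := by
      intro w hw
      have := hQw w hw
      omega
    rw [Finset.sum_congr rfl this, Finset.sum_add_distrib, Finset.sum_add_distrib,
      Finset.sum_const, nsmul_eq_mul, mul_one]
  have hQcount' : ∑ g ∈ Q, ((W.filter (· ∈ g)).card : ℤ) =
      ∑ w ∈ W, ((Q.filter (w ∈ ·)).card : ℤ) := by exact_mod_cast hQcount
  have hFW' : ∑ w ∈ W, ((F.filter (w ∈ ·)).card : ℤ) + f ≤ k := by exact_mod_cast hFW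
  have hFW0 : (0 : ℤ) ≤ ∑ w ∈ W, ((F.filter (w ∈ ·)).card : ℤ) :=
    Finset.sum_nonneg fun _ _ => Int.natCast_nonneg _
  have hBc : 4 * (B.card : ℤ) ≤ (W.card : ℤ) ^ 2 := by exact_mod_cast hBcard
  have e2 : (∑ e ∈ G.edgeFinset \ F, ((min (imb G e) k : ℕ) : ℤ)) =
      ∑ g ∈ G.edgeFinset \ F, c g := rfl
  rw [Nat.cast_sum, e2]
  exact concl k D f W.card B.card N'.card _ _ _ _ _ _ _ _ _ (by exact_mod_cast hf1)
    (by exact_mod_cast hDk) (Int.natCast_nonneg _) (by exact_mod_cast hWN)
    (by exact_mod_cast hN'card) hBc hsumle hW1 hW2 hQcount' hFW' hFW0 hS hstar hQsum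

theorem eg_ineq (hpos : ∀ e ∈ G.edgeFinset, 0 < imb G e) : ∀ (k : ℕ) (F : Finset (Sym2 V)),
    F ⊆ G.edgeFinset → F.card = k →
    ∑ e ∈ F, (imb G e : ℤ) ≤ k * (k - 1) + ((∑ e ∈ G.edgeFinset \ F, min (imb G e) k : ℕ) : ℤ) := by
  intro k
  induction k with
  | zero =>
    intro F _ hcard
    rw [Finset.card_eq_zero] at hcard
    subst hcard
    simp
  | succ k ih =>
    intro F hF hcard
    by_cases h : ∀ e ∈ F, F.card ≤ imb G e
    · have hne : F.Nonempty := by
        rw [← Finset.card_pos]; omega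
      have := main_case G hpos F hF hne h
      rw [hcard] at this
      exact this
    · push Not at h
      obtain ⟨e, he, hlt⟩ := h
      have h1 := ih (F.erase e) ((Finset.erase_subset _ _).trans hF)
        (by rw [Finset.card_erase_of_mem he, hcard]; rfl)
      have h2 : G.edgeFinset \ F.erase e = insert e (G.edgeFinset \ F) := by
        ext g
        simp only [mem_sdiff, mem_erase, mem_insert, not_and]
        constructor
        · rintro ⟨h3, h4⟩
          by_cases h5 : g = e
          · exact Or.inl h5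
          · exact Or.inr ⟨h3, h4 h5⟩
        · rintro (rfl | ⟨h3, h4⟩)
          · exact ⟨hF he, fun h => absurd rfl h⟩
          · exact ⟨h3, fun _ => h4⟩
      have h3 : e ∉ G.edgeFinset \ F := by simp [he]
      rw [h2, Finset.sum_insert h3] at h1
      have h4 : ∑ g ∈ G.edgeFinset \ F, min (imb G g) k ≤
          ∑ g ∈ G.edgeFinset \ F, min (imb G g) (k + 1) :=
        Finset.sum_le_sum fun g _ => min_le_min le_rfl (Nat.le_succ k)
      have h5 : min (imb G e) k ≤ imb G e := min_le_left _ _
      have h6 : imb G e ≤ k := by omega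
      rw [← Finset.add_sum_erase F (fun e => (imb G e : ℤ)) he]
      push_cast at h1 ⊢
      have h7 : ((∑ g ∈ G.edgeFinset \ F, min (imb G g) k : ℕ) : ℤ) ≤
          ((∑ g ∈ G.edgeFinset \ F, min (imb G g) (k + 1) : ℕ) : ℤ) := by exact_mod_cast h4
      push_cast at h7
      have h8 : (min (imb G e : ℤ) (k : ℤ)) ≤ imb G e := min_le_left _ _
      have h9 : (imb G e : ℤ) ≤ k := by exact_mod_cast h6
      nlinarith

/-- the sum of the imbalances is even -/
theorem even_sum : Even (∑ e ∈ G.edgeFinset, imb G e) := by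
  have key : ((∑ e ∈ G.edgeFinset, imb G e : ℕ) : ZMod 2) = 0 := by
    have h1 : ∀ e ∈ G.edgeFinset, ((imb G e : ℕ) : ZMod 2) =
        ∑ x : V, if x ∈ e then (G.degree x : ZMod 2) else 0 := by
      intro e he
      induction e using Sym2.ind with
      | _ a b =>
        have hab : a ≠ b := by
          have : G.Adj a b := by simpa using he
          exact this.ne
        rw [← Finset.sum_filter]
        have h2 : (univ.filter fun x => x ∈ s(a, b)) = {a, b} := by
          ext x
          simp
        rw [h2, Finset.sum_pair hab, imb_mk]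
        rcases le_total (G.degree a) (G.degree b) with h | h
        · obtain ⟨c, hc⟩ := Nat.exists_eq_add_of_le h
          have h3 : ((G.degree a : ℤ) - (G.degree b : ℤ)).natAbs = c := by omega
          rw [h3, hc]
          push_cast
          have : (G.degree a : ZMod 2) + G.degree a = 0 := CharTwo.add_self_eq_zero _
          rw [← add_assoc, this, zero_add]
        · obtain ⟨c, hc⟩ := Nat.exists_eq_add_of_le h
          have h3 : ((G.degree a : ℤ) - (G.degree b : ℤ)).natAbs = c := by omega
          rw [h3, hc]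
          push_cast
          have : (G.degree b : ZMod 2) + G.degree b = 0 := CharTwo.add_self_eq_zero _
          rw [add_comm (G.degree b : ZMod 2) c, add_assoc, this, add_zero]
    rw [Nat.cast_sum, Finset.sum_congr rfl h1, Finset.sum_comm]
    have h3 : ∀ x ∈ (univ : Finset V), (∑ e ∈ G.edgeFinset,
        if x ∈ e then (G.degree x : ZMod 2) else 0) = (G.degree x : ZMod 2) := by
      intro x _
      rw [← Finset.sum_filter, Finset.sum_const]
      have h4 : (G.edgeFinset.filter fun e => x ∈ e) = G.incidenceFinset x := by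
        rw [SimpleGraph.incidenceFinset_eq_filter]
      rw [h4, SimpleGraph.card_incidenceFinset_eq_degree, nsmul_eq_mul]
      have : ∀ a : ZMod 2, a * a = a := by decide
      exact this _
    rw [Finset.sum_congr rfl h3, ← Nat.cast_sum, SimpleGraph.sum_degrees_eq_twice_card_edges]
    push_cast
    have : (2 : ZMod 2) = 0 := by decide
    rw [this, zero_mul]
  rw [ZMod.natCast_eq_zero_iff] at key
  exact (even_iff_two_dvd).2 key

end Pool.Agent.K6.H54.Imb
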