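import Pool.Agent.K6.H54.Rand

/-!
Dense graphs in which every nonempty subgraph has a vertex of degree at most two or a vertex of
degree larger than a given bound.
-/

set_option autoImplicit false

namespace Pool.Agent.K6.H54.QR

open Finset Pool.Agent.K6.H54.Rand

/-- thresholds -/
def rr (d j : ℕ) : ℕ := d * (3 * 2 ^ (j + 1) * d * 2 ^ (j + 3)) ^ 4

/-- degrees of the levels -/
def dd (D : ℕ) : ℕ → ℕ
  | 0 => 2
  | j + 1 => 100 * 2 ^ (j + 1) * (D + 1) * rr (dd D j) j

lemma rr_pos {d j : ℕ} (hd : 0 < d) : 0 < rr d j := by unfold rr; positivity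

lemma le_rr {d j : ℕ} (hd : 0 < d) : d ≤ rr d j := by
  unfold rr
  exact Nat.le_mul_of_pos_right _ (by positivity)

lemma dd_pos (D : ℕ) : ∀ j, 0 < dd D j
  | 0 => by simp [dd]
  | j + 1 => by
    have := rr_pos (j := j) (dd_pos D j)
    simp only [dd]
    positivity

lemma dd_le_succ (D j : ℕ) : 2 * dd D j ≤ dd D (j + 1) := by
  have h1 := le_rr (j := j) (dd_pos D j)
  have h2 : 2 ≤ 100 * 2 ^ (j + 1) * (D + 1) := by
    have : 1 ≤ 2 ^ (j + 1) := Nat.one_le_two_pow
    nlinarith
  simp only [dd]
  exact Nat.mul_le_mul h2 h1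

lemma dd_mono (D : ℕ) : Monotone (dd D) :=
  monotone_nat_of_le_succ fun j => by have := dd_le_succ D j; omega

lemma two_pow_le_dd (D : ℕ) : ∀ j, 2 ^ (j + 1) ≤ dd D j
  | 0 => by simp [dd]
  | j + 1 => by
    have h1 := two_pow_le_dd D j
    have h2 := dd_le_succ D j
    rw [pow_succ]
    omega

lemma rr_mono (D : ℕ) : Monotone fun j => rr (dd D j) j := by
  apply monotone_nat_of_le_succ
  intro j
  have h1 := dd_mono D (Nat.le_succ j)
  unfold rr
  have h2 : 2 ^ (j + 1) ≤ 2 ^ (j + 1 + 1) := Nat.pow_le_pow_right (by norm_num) (by omega)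
  have h3 : 2 ^ (j + 3) ≤ 2 ^ (j + 1 + 3) := Nat.pow_le_pow_right (by norm_num) (by omega)
  gcongr

lemma dd_large (D : ℕ) {i j : ℕ} (hij : j < i) :
    100 * 2 ^ i * (D + 1) * rr (dd D j) j ≤ dd D i := by
  obtain ⟨i, rfl⟩ : ∃ i', i = i' + 1 := ⟨i - 1, by omega⟩
  simp only [dd]
  exact Nat.mul_le_mul_left _ (rr_mono D (by omega : j ≤ i))

/-- the vertices of the graph -/
abbrev Vt (m N : ℕ) (b : Fin m → ℕ) : Type := Fin N ⊕ (Σ i : Fin m, Fin (b i))

/-- the graph of a system of functions: `a` is joined to the value `φ i a` for every `i`. -/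
def gr {m N : ℕ} {b : Fin m → ℕ} (φ : (i : Fin m) → Fin N → Fin (b i)) :
    SimpleGraph (Vt m N b) where
  Adj x y := (∃ a i, x = Sum.inl a ∧ y = Sum.inr ⟨i, φ i a⟩) ∨
    (∃ a i, y = Sum.inl a ∧ x = Sum.inr ⟨i, φ i a⟩)
  symm := ⟨fun _ _ h => h.symm⟩
  loopless := ⟨fun x h => by
    rcases h with ⟨a, i, h1, h2⟩ | ⟨a, i, h1, h2⟩ <;> (rw [h1] at h2; cases h2)⟩

lemma gr_inl_inr {m N : ℕ} {b : Fin m → ℕ} (φ : (i : Fin m) → Fin N → Fin (b i)) (a : Fin N)
    (i : Fin m) (c : Fin (b i)) :
    (gr φ).Adj (Sum.inl a) (Sum.inr ⟨i, c⟩) ↔ φ i a = c := by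
  constructor
  · rintro (⟨a', i', h1, h2⟩ | ⟨a', i', h1, h2⟩)
    · obtain rfl := Sum.inl_injective h1
      have h3 := Sum.inr_injective h2
      simp only [Sigma.mk.injEq] at h3
      obtain ⟨rfl, h4⟩ := h3
      exact (eq_of_heq h4).symm
    · cases h1
  · rintro rfl
    exact Or.inl ⟨a, i, rfl, rfl⟩

lemma gr_inl {m N : ℕ} {b : Fin m → ℕ} (φ : (i : Fin m) → Fin N → Fin (b i)) (a : Fin N)
    (y : Vt m N b) (h : (gr φ).Adj (Sum.inl a) y) : ∃ i, y = Sum.inr ⟨i, φ i a⟩ := by
  rcases h with ⟨a', i', h1, h2⟩ | ⟨a', i', h1, h2⟩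
  · obtain rfl := Sum.inl_injective h1
    exact ⟨i', h2⟩
  · cases h2

lemma gr_inr {m N : ℕ} {b : Fin m → ℕ} (φ : (i : Fin m) → Fin N → Fin (b i)) (i : Fin m)
    (c : Fin (b i)) (y : Vt m N b) (h : (gr φ).Adj (Sum.inr ⟨i, c⟩) y) :
    ∃ a, y = Sum.inl a ∧ φ i a = c := by
  rcases h with ⟨a', i', h1, h2⟩ | ⟨a', i', h1, h2⟩
  · cases h1
  · refine ⟨a', h1, ?_⟩
    have h3 := Sum.inr_injective h2
    simp only [Sigma.mk.injEq] at h3
    obtain ⟨rfl, h4⟩ := h3
    exact (eq_of_heq h4).symm

lemma edges_ge {m N : ℕ} {b : Fin m → ℕ} (φ : (i : Fin m) → Fin N → Fin (b i)) :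
    m * N ≤ (gr φ).edgeSet.ncard := by
  have h : Set.range (fun p : Fin m × Fin N =>
      (s(Sum.inl p.2, Sum.inr ⟨p.1, φ p.1 p.2⟩) : Sym2 (Vt m N b))) ⊆ (gr φ).edgeSet := by
    rintro _ ⟨p, rfl⟩
    rw [SimpleGraph.mem_edgeSet]
    exact (gr_inl_inr φ _ _ _).2 rfl
  have h2 := Set.ncard_le_ncard h (Set.toFinite _)
  rw [← Set.image_univ, Set.ncard_image_of_injective] at h2
  · rw [Set.ncard_univ, Nat.card_prod, Nat.card_fin, Nat.card_fin] at h2
    exact h2
  · rintro ⟨i, a⟩ ⟨i', a'⟩ h3
    simp only [Sym2.eq_iff, Sum.inl.injEq, Sum.inr.injEq, Sigma.mk.injEq, reduceCtorEq,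
      and_self, or_false] at h3
    obtain ⟨rfl, rfl, -⟩ := h3
    rfl

/-- the combinatorial part -/
theorem no_sub {m N D : ℕ}
    (φ : (i : Fin m) → Fin N → Fin (N / dd D i))
    (hφ : ∀ j : Fin m, ∀ S : Finset (Fin N), S.Nonempty →
      S.card * rr (dd D j) j ≤ N → 4 * repSum φ j S < 5 * S.card)
    (H : (gr φ).Subgraph) (hne : H.verts.Nonempty)
    (hdeg : ∀ x ∈ H.verts, 3 ≤ (H.neighborSet x).ncard ∧ (H.neighborSet x).ncard ≤ D) :
    False := by
  classical
  set A : Finset (Fin N) := univ.filter fun a => Sum.inl a ∈ H.verts with hA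
  set E : Fin m → Finset (Fin N) := fun i =>
    A.filter fun a => H.Adj (Sum.inl a) (Sum.inr ⟨i, φ i a⟩) with hE
  -- degrees at the first side
  have h1 : ∀ a ∈ A, 3 ≤ (univ.filter fun i => a ∈ E i).card := by
    intro a ha
    have ha' : Sum.inl a ∈ H.verts := by simpa [hA] using ha
    refine (hdeg _ ha').1.trans ?_
    have hsub : H.neighborSet (Sum.inl a) ⊆
        (fun i : Fin m => (Sum.inr ⟨i, φ i a⟩ : Vt m N fun i => N / dd D i)) ''
          ((univ.filter fun i => a ∈ E i : Finset (Fin m)) : Set (Fin m)) := by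
      intro y hy
      have hy' : H.Adj (Sum.inl a) y := hy
      obtain ⟨i, rfl⟩ := gr_inl φ a y hy'.adj_sub
      refine ⟨i, ?_, rfl⟩
      simp only [coe_filter, mem_univ, true_and, Set.mem_ofPred_eq, hE, mem_filter]
      exact ⟨ha, hy'⟩
    refine (Set.ncard_le_ncard hsub (Set.toFinite _)).trans ?_
    refine (Set.ncard_image_le (Set.toFinite _)).trans ?_
    rw [Set.ncard_coe_finset]
  have h2 : 3 * A.card ≤ ∑ i, (E i).card := by
    have h3 : ∑ a ∈ A, (univ.filter fun i => a ∈ E i).card = ∑ i, (E i).card := by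
      have e1 : ∀ a ∈ A, (univ.filter fun i => a ∈ E i).card =
          ∑ i, if a ∈ E i then 1 else 0 := by
        intro a _
        rw [Finset.card_filter]
      rw [Finset.sum_congr rfl e1, Finset.sum_comm]
      apply Finset.sum_congr rfl
      intro i _
      rw [← Finset.card_filter]
      congr 1
      ext a
      simp only [mem_filter, hE]
      tauto
    rw [← h3]
    calc 3 * A.card = ∑ a ∈ A, 3 := by rw [Finset.sum_const, smul_eq_mul, mul_comm]
      _ ≤ _ := Finset.sum_le_sum h1
  -- the fibres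
  have hfib : ∀ i, ∀ c ∈ (E i).image (φ i),
      3 ≤ ((E i).filter fun a => φ i a = c).card ∧ ((E i).filter fun a => φ i a = c).card ≤ D := by
    intro i c hc
    obtain ⟨a, ha, hac⟩ := Finset.mem_image.1 hc
    have hv : (Sum.inr ⟨i, c⟩ : Vt m N fun i => N / dd D i) ∈ H.verts := by
      rw [← hac]
      simp only [hE, mem_filter] at ha
      exact H.edge_vert ha.2.symm
    have hset : H.neighborSet (Sum.inr ⟨i, c⟩) =
        Sum.inl '' (((E i).filter fun a => φ i a = c : Finset (Fin N)) : Set (Fin N)) := by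
      ext y
      constructor
      · intro hy
        have hy' : H.Adj (Sum.inr ⟨i, c⟩) y := hy
        obtain ⟨a', rfl, ha'⟩ := gr_inr φ i c y hy'.adj_sub
        refine ⟨a', ?_, rfl⟩
        simp only [hE, hA, coe_filter, mem_filter, mem_univ, true_and, Set.mem_ofPred_eq]
        refine ⟨⟨H.edge_vert hy'.symm, ?_⟩, ha'⟩
        rw [ha']
        exact hy'.symm
      · rintro ⟨a', ha', rfl⟩
        simp only [hE, hA, coe_filter, mem_filter, mem_univ, true_and, Set.mem_ofPred_eq] at ha'
        have := ha'.1.2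
        rw [ha'.2] at this
        exact this.symm
    have hcard : (H.neighborSet (Sum.inr ⟨i, c⟩)).ncard =
        ((E i).filter fun a => φ i a = c).card := by
      rw [hset, Set.ncard_image_of_injective _ Sum.inl_injective, Set.ncard_coe_finset]
    rw [← hcard]
    exact hdeg _ hv
  have hE1 : ∀ i, 3 * ((E i).image (φ i)).card ≤ (E i).card := by
    intro i
    rw [Finset.card_eq_sum_card_image (φ i) (E i)]
    calc 3 * ((E i).image (φ i)).card = ∑ c ∈ (E i).image (φ i), 3 := by
          rw [Finset.sum_const, smul_eq_mul, mul_comm]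
      _ ≤ _ := Finset.sum_le_sum fun c hc => (hfib i c hc).1
  have hE2 : ∀ i, (E i).card ≤ D * (N / dd D i) := by
    intro i
    rw [Finset.card_eq_sum_card_image (φ i) (E i)]
    calc _ ≤ ∑ c ∈ (E i).image (φ i), D := Finset.sum_le_sum fun c hc => (hfib i c hc).2
      _ = ((E i).image (φ i)).card * D := by rw [Finset.sum_const, smul_eq_mul]
      _ ≤ (N / dd D i) * D := by
          apply Nat.mul_le_mul_right
          simpa using Finset.card_le_univ ((E i).image (φ i))
      _ = _ := mul_comm _ _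
  have hE3 : ∀ i, 2 * (E i).card ≤ 3 * (rep (φ i) A).card := by
    intro i
    have h3 := card_le_image_add_rep (φ i) (E i)
    have h4 := hE1 i
    have h5 : (rep (φ i) (E i)).card ≤ (rep (φ i) A).card :=
      card_le_card (rep_mono (φ i) (filter_subset _ _))
    omega
  have hE4 : ∀ i, (E i).card ≤ A.card := fun i => card_le_card (filter_subset _ _)
  -- there is a vertex at the first side
  have hAne : A.Nonempty := by
    obtain ⟨x, hx⟩ := hne
    rcases x with a | ⟨i, c⟩
    · exact ⟨a, by simpa [hA] using hx⟩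
    · have h3 := (hdeg _ hx).1
      have h4 : (H.neighborSet (Sum.inr ⟨i, c⟩)).Nonempty := by
        apply Set.nonempty_of_ncard_ne_zero
        omega
      obtain ⟨y, hy⟩ := h4
      have hy' : H.Adj (Sum.inr ⟨i, c⟩) y := hy
      obtain ⟨a', rfl, -⟩ := gr_inr φ i c y hy'.adj_sub
      exact ⟨a', by simpa [hA] using H.edge_vert hy'.symm⟩
  set s : ℕ := A.card with hs
  have hspos : 0 < s := hAne.card_pos
  set r : Fin m → ℕ := fun i => rr (dd D i) i with hr
  have hrmono : ∀ i j : Fin m, i ≤ j → r i ≤ r j := fun i j hij => rr_mono D hij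
  set J : Finset (Fin m) := univ.filter fun i => s * r i ≤ N with hJ
  -- the sparse levels
  have hsparse : 8 * ∑ i ∈ J, (E i).card ≤ 15 * s := by
    rcases J.eq_empty_or_nonempty with h0 | h0
    · rw [h0]; simp
    · set j := J.max' h0 with hj
      have hjJ : j ∈ J := Finset.max'_mem J h0
      have hJeq : J = univ.filter fun i => i ≤ j := by
        ext i
        simp only [mem_filter, mem_univ, true_and]
        constructor
        · intro hi
          exact Finset.le_max' J i hi
        · intro hi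
          have h3 : s * r j ≤ N := by simpa [hJ] using hjJ
          simp only [hJ, mem_filter, mem_univ, true_and]
          exact (Nat.mul_le_mul_left s (hrmono i j hi)).trans h3
      have h3 : s * r j ≤ N := by simpa [hJ] using hjJ
      have h4 := hφ j A hAne h3
      have h5 : 2 * ∑ i ∈ J, (E i).card ≤ 3 * repSum φ j A := by
        unfold repSum
        rw [← hJeq, Finset.mul_sum, Finset.mul_sum]
        exact Finset.sum_le_sum fun i _ => hE3 i
      omega
  -- the other levels
  have hdense : (∑ i ∈ univ.filter (fun i => ¬ s * r i ≤ N), ((E i).card : ℝ)) ≤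
      s + s / 50 := by
    rcases (univ.filter (fun i => ¬ s * r i ≤ N)).eq_empty_or_nonempty with h0 | h0
    · rw [h0]
      simp only [sum_empty]
      positivity
    · set i0 := (univ.filter (fun i => ¬ s * r i ≤ N)).min' h0 with hi0
      have hi0mem : i0 ∈ univ.filter (fun i => ¬ s * r i ≤ N) := Finset.min'_mem _ h0
      have hi0N : N < s * r i0 := by
        have := (Finset.mem_filter.1 hi0mem).2
        omega
      have hbound : ∀ i ∈ univ.filter (fun i => ¬ s * r i ≤ N),
          ((E i).card : ℝ) ≤ (if i = i0 then (s : ℝ) else 0) + s / 100 * (1 / 2) ^ i.val := by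
        intro i hi
        have hle : i0 ≤ i := Finset.min'_le _ i hi
        have hnn : (0 : ℝ) ≤ s / 100 * (1 / 2) ^ i.val := by positivity
        by_cases hii : i = i0
        · rw [if_pos hii]
          have : ((E i).card : ℝ) ≤ s := by exact_mod_cast hE4 i
          linarith
        · rw [if_neg hii, zero_add]
          have hlt : i0 < i := lt_of_le_of_ne hle (Ne.symm hii)
          have hlarge := dd_large D (i := i.val) (j := i0.val) hlt
          have h3 := hE2 i
          have hddpos : 0 < dd D i := dd_pos D i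
          have hr0 : 0 < r i0 := rr_pos (dd_pos D i0)
          -- |E i| * dd i ≤ D N < D s r
          have h4 : (E i).card * dd D i ≤ D * N := by
            calc (E i).card * dd D i ≤ D * (N / dd D i) * dd D i := Nat.mul_le_mul_right _ h3
              _ = D * ((N / dd D i) * dd D i) := by ring
              _ ≤ D * N := Nat.mul_le_mul_left _ (Nat.div_mul_le_self _ _)
          have h5 : (E i).card * (100 * 2 ^ i.val * (D + 1) * r i0) ≤ D * (s * r i0) :=
            (Nat.mul_le_mul_left _ hlarge).trans (h4.trans (Nat.mul_le_mul_left _ hi0N.le))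
          have h6 : (E i).card * (100 * 2 ^ i.val) ≤ s := by
            by_contra hcon
            push Not at hcon
            have h7 : s * ((D + 1) * r i0) < (E i).card * (100 * 2 ^ i.val) * ((D + 1) * r i0) :=
              Nat.mul_lt_mul_of_pos_right hcon (by positivity)
            have h8 : D * (s * r i0) ≤ s * ((D + 1) * r i0) := by nlinarith
            have h9 : (E i).card * (100 * 2 ^ i.val) * ((D + 1) * r i0) =
              (E i).card * (100 * 2 ^ i.val * (D + 1) * r i0) := by ring
            omega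
          have h7 : ((E i).card : ℝ) * (100 * 2 ^ i.val) ≤ s := by exact_mod_cast h6
          have h8 : (s : ℝ) / 100 * (1 / 2) ^ i.val = s / (100 * 2 ^ i.val) := by
            rw [div_pow, one_pow]
            field_simp
          rw [h8, le_div_iff₀ (by positivity)]
          exact h7
      refine (Finset.sum_le_sum hbound).trans ?_
      rw [Finset.sum_add_distrib]
      apply add_le_add
      · rw [Finset.sum_ite_eq']
        rw [if_pos hi0mem]
      · rw [← Finset.mul_sum]
        have h3 : ∑ i ∈ univ.filter (fun i => ¬ s * r i ≤ N), ((1 : ℝ) / 2) ^ i.val ≤ 2 := by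
          refine (Finset.sum_le_sum_of_subset_of_nonneg (Finset.subset_univ _)
            (fun i _ _ => by positivity)).trans ?_
          rw [Fin.sum_univ_eq_sum_range (fun j => ((1 : ℝ) / 2) ^ j)]
          have key : ∀ n : ℕ, ∑ j ∈ Finset.range n, ((1 : ℝ) / 2) ^ j = 2 - 2 * (1 / 2) ^ n := by
            intro n
            induction n with
            | zero => simp
            | succ n ih => rw [Finset.sum_range_succ, ih, pow_succ]; ring
          rw [key]
          have : (0 : ℝ) < (1 / 2) ^ m := by positivity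
          linarith
        have : (0 : ℝ) ≤ s / 100 := by positivity
        nlinarith
  have hsplit : (∑ i, ((E i).card : ℝ)) = (∑ i ∈ J, ((E i).card : ℝ)) +
      ∑ i ∈ univ.filter (fun i => ¬ s * r i ≤ N), ((E i).card : ℝ) := by
    rw [hJ, Finset.sum_filter_add_sum_filter_not]
  have h3 : (3 : ℝ) * s ≤ ∑ i, ((E i).card : ℝ) := by exact_mod_cast h2
  have h4 : (8 : ℝ) * ∑ i ∈ J, ((E i).card : ℝ) ≤ 15 * s := by exact_mod_cast hsparse
  have h5 : (0 : ℝ) < s := by exact_mod_cast hspos
  rw [hsplit] at h3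
  linarith

/-- For all `D` and `m` there is a graph with at least `m / 2` times as many edges as vertices
such that no nonempty subgraph has all its degrees between `3` and `D`. -/
theorem core (D m : ℕ) : ∃ (V : Type) (_ : Fintype V) (_ : Nonempty V) (G : SimpleGraph V),
    m * Fintype.card V ≤ 2 * G.edgeSet.ncard ∧
    ∀ H : G.Subgraph, H.verts.Nonempty →
      ¬ ∀ x ∈ H.verts, 3 ≤ (H.neighborSet x).ncard ∧ (H.neighborSet x).ncard ≤ D := by
  set N : ℕ := ∏ i ∈ Finset.range m, dd D i with hNdef
  have hN : 0 < N := Finset.prod_pos fun i _ => dd_pos D i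
  have hdiv : ∀ i < m, dd D i ∣ N := fun i hi =>
    Finset.dvd_prod_of_mem _ (Finset.mem_range.2 hi)
  obtain ⟨φ, hφ⟩ := exists_good m N (dd D) (fun j => rr (dd D j) j) hN (dd_pos D) (dd_mono D) hdiv
    (fun j => rfl)
  refine ⟨Vt m N fun i => N / dd D i, inferInstance, ⟨Sum.inl ⟨0, hN⟩⟩, gr φ, ?_, ?_⟩
  · have h1 := edges_ge φ
    have h2 : Fintype.card (Vt m N fun i : Fin m => N / dd D i) ≤ 2 * N := by
      rw [Fintype.card_sum, Fintype.card_fin, Fintype.card_sigma]
      have h3 : ∑ i : Fin m, Fintype.card (Fin (N / dd D i)) ≤ N := by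
        have h4 : (∑ i : Fin m, ((N / dd D i : ℕ) : ℝ)) ≤ N := by
          have h5 : ∀ i : Fin m, ((N / dd D i : ℕ) : ℝ) ≤ N * ((1 / 2) ^ (i.val + 1)) := by
            intro i
            have h6 : ((N / dd D i : ℕ) : ℝ) ≤ (N : ℝ) / (dd D i : ℝ) := Nat.cast_div_le
            refine h6.trans ?_
            have h7 : (2 : ℝ) ^ (i.val + 1) ≤ dd D i := by exact_mod_cast two_pow_le_dd D i
            rw [div_pow, one_pow, mul_one_div]
            apply div_le_div_of_nonneg_left (by positivity) (by positivity) h7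
          refine (Finset.sum_le_sum fun i _ => h5 i).trans ?_
          rw [← Finset.mul_sum]
          have h8 : ∑ i : Fin m, ((1 : ℝ) / 2) ^ (i.val + 1) ≤ 1 := by
            rw [Fin.sum_univ_eq_sum_range (fun j => ((1 : ℝ) / 2) ^ (j + 1))]
            have key : ∀ n : ℕ, ∑ j ∈ Finset.range n, ((1 : ℝ) / 2) ^ (j + 1) =
                1 - (1 / 2) ^ n := by
              intro n
              induction n with
              | zero => simp
              | succ n ih => rw [Finset.sum_range_succ, ih, pow_succ]; ring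
            rw [key]
            have : (0 : ℝ) < (1 / 2) ^ m := by positivity
            linarith
          have h9 : (0 : ℝ) ≤ N := by positivity
          nlinarith
        simp only [Fintype.card_fin]
        exact_mod_cast h4
      show N + ∑ i : Fin m, Fintype.card (Fin (N / dd D i)) ≤ 2 * N
      omega
    calc m * Fintype.card (Vt m N fun i : Fin m => N / dd D i) ≤ m * (2 * N) :=
          Nat.mul_le_mul_left _ h2
      _ = 2 * (m * N) := by ring
      _ ≤ _ := Nat.mul_le_mul_left _ h1
  · intro H hne hdeg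
    exact no_sub φ (fun j S h1 h2 => hφ j S h1 h2) H hne hdeg

end Pool.Agent.K6.H54.QR
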