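import Mathlib

/-!
Counting lemmas: systems of functions `φ i : Fin N → Fin (b i)` such that on every small set the
functions have few repeated values in total.
-/

set_option autoImplicit false

namespace Pool.Agent.K6.H54.Rand

open Finset

/-- The elements of `S` whose value already occurs at a smaller element of `S`. -/
def rep {N b : ℕ} (f : Fin N → Fin b) (S : Finset (Fin N)) : Finset (Fin N) :=
  S.filter fun a => ∃ a' ∈ S, a' < a ∧ f a' = f a

lemma rep_mono {N b : ℕ} (f : Fin N → Fin b) {S T : Finset (Fin N)} (h : S ⊆ T) :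
    rep f S ⊆ rep f T := by
  intro a ha
  simp only [rep, mem_filter] at ha ⊢
  obtain ⟨h1, a', h2, h3⟩ := ha
  exact ⟨h h1, a', h h2, h3⟩

lemma card_le_image_add_rep {N b : ℕ} (f : Fin N → Fin b) (S : Finset (Fin N)) :
    S.card ≤ (S.image f).card + (rep f S).card := by
  have h1 : (S \ rep f S).card ≤ (S.image f).card := by
    apply Finset.card_le_card_of_injOn f
    · intro a ha
      have : a ∈ S := by
        have := ha
        simp only [coe_sdiff, Set.mem_sdiff, mem_coe] at this
        exact this.1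
      simpa using ⟨a, this, rfl⟩
    · intro a ha a' ha' h
      simp only [coe_sdiff, Set.mem_sdiff, mem_coe, rep, mem_filter, not_and, not_exists] at ha ha'
      rcases lt_trichotomy a a' with hlt | heq | hgt
      · exact absurd h (ha'.2 ha'.1 a ha.1 hlt)
      · exact heq
      · exact absurd h.symm (ha.2 ha.1 a' ha'.1 hgt)
  have h2 : (S \ rep f S).card = S.card - (rep f S).card :=
    Finset.card_sdiff_of_subset (filter_subset _ _)
  omega

lemma count_parent {N b : ℕ} (T : Finset (Fin N)) (ψ : Fin N → Fin N) :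
    (univ.filter fun f : Fin N → Fin b => ∀ a ∈ T, ψ a < a ∧ f (ψ a) = f a).card ≤
      b ^ (N - T.card) := by
  classical
  have h1 : Fintype.card ({a // a ∉ T} → Fin b) = b ^ (N - T.card) := by
    rw [Fintype.card_fun, Fintype.card_fin]
    congr 1
    rw [Fintype.card_subtype_compl (fun a => a ∈ T), Fintype.card_fin, Fintype.card_coe]
  rw [← h1, ← Finset.card_univ]
  apply Finset.card_le_card_of_injOn (fun f (a : {a // a ∉ T}) => f a.1)
  · intro f _
    simp
  · intro f hf g hg hfg
    simp only [coe_filter, mem_univ, true_and, Set.mem_ofPred_eq] at hf hg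
    have key : ∀ (n : ℕ) (a : Fin N), a.val = n → f a = g a := by
      intro n
      induction n using Nat.strong_induction_on with
      | _ n ih =>
        intro a ha
        by_cases haT : a ∈ T
        · rw [← (hf a haT).2, ← (hg a haT).2]
          have := (hf a haT).1
          exact ih (ψ a).val (by rw [← ha]; exact this) _ rfl
        · exact congrFun hfg ⟨a, haT⟩
    funext a
    exact key a.val a rfl

lemma count_rep {N b : ℕ} (S T : Finset (Fin N)) :
    (univ.filter fun f : Fin N → Fin b => ∀ a ∈ T, ∃ a' ∈ S, a' < a ∧ f a' = f a).card ≤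
      S.card ^ T.card * b ^ (N - T.card) := by
  classical
  let P : Finset (Fin N → Fin N) := Fintype.piFinset fun a => if a ∈ T then S else {a}
  have hP : P.card = S.card ^ T.card := by
    rw [Fintype.card_piFinset]
    have : ∀ a : Fin N, (if a ∈ T then S else {a}).card = if a ∈ T then S.card else 1 := by
      intro a
      split_ifs <;> simp
    rw [Finset.prod_congr rfl (fun a _ => this a), Finset.prod_ite]
    simp
  have hsub : (univ.filter fun f : Fin N → Fin b => ∀ a ∈ T, ∃ a' ∈ S, a' < a ∧ f a' = f a) ⊆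
      P.biUnion fun ψ => univ.filter fun f : Fin N → Fin b => ∀ a ∈ T, ψ a < a ∧ f (ψ a) = f a := by
    intro f hf
    simp only [mem_filter, mem_univ, true_and] at hf
    simp only [mem_biUnion, mem_filter, mem_univ, true_and]
    choose! ψ h1 h2 h3 using hf
    refine ⟨fun a => if a ∈ T then ψ a else a, ?_, ?_⟩
    · rw [Fintype.mem_piFinset]
      intro a
      by_cases ha : a ∈ T
      · simp [ha, h1 a ha]
      · simp [ha]
    · intro a ha
      simp only [ha, if_true]
      exact ⟨h2 a ha, h3 a ha⟩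
  refine (card_le_card hsub).trans ?_
  refine card_biUnion_le.trans ?_
  refine (Finset.sum_le_sum fun ψ _ => count_parent T ψ).trans ?_
  rw [Finset.sum_const, hP, smul_eq_mul]

/-- The total number of repeated values on `S` for the functions with index at most `j`. -/
def repSum {m N : ℕ} {b : Fin m → ℕ} (φ : (i : Fin m) → Fin N → Fin (b i)) (j : Fin m)
    (S : Finset (Fin N)) : ℕ :=
  ∑ i ∈ univ.filter (fun i => i ≤ j), (rep (φ i) S).card

lemma count_tuple {m N : ℕ} (b : Fin m → ℕ) (S : Finset (Fin N)) (T : Fin m → Finset (Fin N)) :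
    (univ.filter fun φ : (i : Fin m) → Fin N → Fin (b i) =>
      ∀ i, ∀ a ∈ T i, ∃ a' ∈ S, a' < a ∧ φ i a' = φ i a).card ≤
      ∏ i, (S.card ^ (T i).card * b i ^ (N - (T i).card)) := by
  classical
  have : (univ.filter fun φ : (i : Fin m) → Fin N → Fin (b i) =>
      ∀ i, ∀ a ∈ T i, ∃ a' ∈ S, a' < a ∧ φ i a' = φ i a) =
      Fintype.piFinset fun i => univ.filter fun f : Fin N → Fin (b i) =>
        ∀ a ∈ T i, ∃ a' ∈ S, a' < a ∧ f a' = f a := by
    ext φ
    simp [Fintype.mem_piFinset]
  rw [this, Fintype.card_piFinset]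
  exact Finset.prod_le_prod' fun i _ => count_rep S (T i)

lemma count_tuple_real {m N : ℕ} (b : Fin m → ℕ) (hb : ∀ i, 0 < b i) (j : Fin m)
    (hbj : ∀ i ≤ j, b j ≤ b i) (S : Finset (Fin N)) (T : Fin m → Finset (Fin N))
    (hT : ∀ i, j < i → T i = ∅) :
    ((univ.filter fun φ : (i : Fin m) → Fin N → Fin (b i) =>
      ∀ i, ∀ a ∈ T i, ∃ a' ∈ S, a' < a ∧ φ i a' = φ i a).card : ℝ) ≤
      (∏ i, (b i : ℝ) ^ N) * ((S.card : ℝ) / b j) ^ (∑ i, (T i).card) := by
  have h1 := count_tuple b S T
  have h2 : ((univ.filter fun φ : (i : Fin m) → Fin N → Fin (b i) =>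
      ∀ i, ∀ a ∈ T i, ∃ a' ∈ S, a' < a ∧ φ i a' = φ i a).card : ℝ) ≤
      ∏ i, ((S.card : ℝ) ^ (T i).card * (b i : ℝ) ^ (N - (T i).card)) := by
    exact_mod_cast h1
  refine h2.trans ?_
  rw [← Finset.prod_pow_eq_pow_sum, ← Finset.prod_mul_distrib]
  apply Finset.prod_le_prod
  · intro i _; positivity
  · intro i _
    have hbi : (0 : ℝ) < b i := by exact_mod_cast hb i
    have hbj' : (0 : ℝ) < b j := by exact_mod_cast hb j
    have hTN : (T i).card ≤ N := by
      have := Finset.card_le_univ (T i)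
      simpa using this
    have e1 : (b i : ℝ) ^ N = (b i : ℝ) ^ (N - (T i).card) * (b i : ℝ) ^ (T i).card := by
      rw [← pow_add]; congr 1; omega
    by_cases hij : j < i
    · rw [hT i hij]; simp
    · push Not at hij
      have hle : (b j : ℝ) ≤ b i := by exact_mod_cast hbj i hij
      rw [e1, div_pow]
      rw [mul_comm]
      rw [mul_assoc]
      apply mul_le_mul_of_nonneg_left _ (by positivity)
      rw [mul_div_assoc', le_div_iff₀ (by positivity), mul_comm]
      exact mul_le_mul_of_nonneg_right (pow_le_pow_left₀ hbj'.le hle _) (by positivity)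

lemma count_bad_one {m N : ℕ} (b : Fin m → ℕ) (hb : ∀ i, 0 < b i) (j : Fin m)
    (hbj : ∀ i ≤ j, b j ≤ b i) (S : Finset (Fin N)) (y : ℝ) (hy0 : 0 ≤ y) (hy1 : y ≤ 1)
    (hy : y ^ 4 = (S.card : ℝ) / b j) :
    ((univ.filter fun φ : (i : Fin m) → Fin N → Fin (b i) =>
      5 * S.card ≤ 4 * repSum φ j S).card : ℝ) ≤
      (∏ i, (b i : ℝ) ^ N) * (2 ^ (j.val + 1) * y ^ 5) ^ S.card := by
  classical
  let P : Finset (Fin m → Finset (Fin N)) :=
    (Fintype.piFinset fun i => if i ≤ j then S.powerset else {∅}).filter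
      fun T => 5 * S.card ≤ 4 * ∑ i, (T i).card
  have hcard : (P.card : ℝ) ≤ (2 ^ (j.val + 1)) ^ S.card := by
    have h1 : P.card ≤ (Fintype.piFinset fun i : Fin m =>
        if i ≤ j then S.powerset else ({∅} : Finset (Finset (Fin N)))).card :=
      card_le_card (filter_subset _ _)
    have h2 : (Fintype.piFinset fun i : Fin m =>
        if i ≤ j then S.powerset else ({∅} : Finset (Finset (Fin N)))).card =
        (2 ^ S.card) ^ (j.val + 1) := by
      rw [Fintype.card_piFinset]
      have : ∀ i : Fin m, (if i ≤ j then S.powerset else ({∅} : Finset (Finset (Fin N)))).card =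
          if i ≤ j then 2 ^ S.card else 1 := by
        intro i
        split_ifs <;> simp
      rw [Finset.prod_congr rfl (fun i _ => this i), Finset.prod_ite]
      simp only [prod_const, one_pow, mul_one]
      congr 1
      have : (univ.filter fun i : Fin m => i ≤ j) = Finset.Iic j := by
        ext i; simp
      rw [this, Fin.card_Iic]
    have h3 : P.card ≤ (2 ^ (j.val + 1)) ^ S.card := by
      rw [h2] at h1
      rw [← pow_mul, mul_comm, pow_mul]
      exact h1
    exact_mod_cast h3
  have hsub : (univ.filter fun φ : (i : Fin m) → Fin N → Fin (b i) =>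
      5 * S.card ≤ 4 * repSum φ j S) ⊆
      P.biUnion fun T => univ.filter fun φ : (i : Fin m) → Fin N → Fin (b i) =>
        ∀ i, ∀ a ∈ T i, ∃ a' ∈ S, a' < a ∧ φ i a' = φ i a := by
    intro φ hφ
    simp only [mem_filter, mem_univ, true_and] at hφ
    simp only [mem_biUnion, mem_filter, mem_univ, true_and]
    refine ⟨fun i => if i ≤ j then rep (φ i) S else ∅, ?_, ?_⟩
    · simp only [P, mem_filter, Fintype.mem_piFinset]
      constructor
      · intro i
        by_cases hij : i ≤ j
        · simp only [hij, if_true, mem_powerset]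
          exact filter_subset _ _
        · simp [hij]
      · have : ∑ i, (if i ≤ j then rep (φ i) S else ∅).card = repSum φ j S := by
          unfold repSum
          rw [Finset.sum_filter]
          apply Finset.sum_congr rfl
          intro i _
          split_ifs <;> simp
        rw [this]
        exact hφ
    · intro i a ha
      by_cases hij : i ≤ j
      · simp only [hij, if_true, rep, mem_filter] at ha
        exact ha.2
      · simp [hij] at ha
  have hB : (0 : ℝ) ≤ ∏ i, (b i : ℝ) ^ N := Finset.prod_nonneg fun i _ => by positivity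
  have hterm : ∀ T ∈ P, ((univ.filter fun φ : (i : Fin m) → Fin N → Fin (b i) =>
        ∀ i, ∀ a ∈ T i, ∃ a' ∈ S, a' < a ∧ φ i a' = φ i a).card : ℝ) ≤
        (∏ i, (b i : ℝ) ^ N) * (y ^ 5) ^ S.card := by
    intro T hT
    simp only [P, mem_filter, Fintype.mem_piFinset] at hT
    have hT0 : ∀ i, j < i → T i = ∅ := by
      intro i hi
      have := hT.1 i
      rw [if_neg (not_le.2 hi)] at this
      simpa using this
    refine (count_tuple_real b hb j hbj S T hT0).trans ?_
    apply mul_le_mul_of_nonneg_left _ hB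
    rw [← hy, ← pow_mul, ← pow_mul]
    exact pow_le_pow_of_le_one hy0 hy1 hT.2
  calc ((univ.filter fun φ : (i : Fin m) → Fin N → Fin (b i) =>
      5 * S.card ≤ 4 * repSum φ j S).card : ℝ)
      ≤ ((P.biUnion fun T => univ.filter fun φ : (i : Fin m) → Fin N → Fin (b i) =>
        ∀ i, ∀ a ∈ T i, ∃ a' ∈ S, a' < a ∧ φ i a' = φ i a).card : ℝ) := by
        exact_mod_cast card_le_card hsub
    _ ≤ ∑ T ∈ P, ((univ.filter fun φ : (i : Fin m) → Fin N → Fin (b i) =>
        ∀ i, ∀ a ∈ T i, ∃ a' ∈ S, a' < a ∧ φ i a' = φ i a).card : ℝ) := by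
        exact_mod_cast card_biUnion_le
    _ ≤ ∑ T ∈ P, (∏ i, (b i : ℝ) ^ N) * (y ^ 5) ^ S.card := Finset.sum_le_sum hterm
    _ = P.card * ((∏ i, (b i : ℝ) ^ N) * (y ^ 5) ^ S.card) := by
        rw [Finset.sum_const, nsmul_eq_mul]
    _ ≤ (2 ^ (j.val + 1)) ^ S.card * ((∏ i, (b i : ℝ) ^ N) * (y ^ 5) ^ S.card) := by
        apply mul_le_mul_of_nonneg_right hcard (by positivity)
    _ = (∏ i, (b i : ℝ) ^ N) * (2 ^ (j.val + 1) * y ^ 5) ^ S.card := by
        rw [mul_pow]; ring

/-- `C(N, s) ≤ (3 N / s) ^ s`. -/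
lemma choose_le (N s : ℕ) (hs : 0 < s) : (N.choose s : ℝ) ≤ (3 * N / s) ^ s := by
  have h1 : (N.choose s : ℝ) ≤ (N : ℝ) ^ s / (s.factorial : ℝ) := by
    have := Nat.choose_le_pow_div (α := ℝ) s N
    exact_mod_cast this
  have h2 : (s : ℝ) ^ s / (s.factorial : ℝ) ≤ 3 ^ s := by
    refine (Real.pow_div_factorial_le_exp (s : ℝ) (by positivity) s).trans ?_
    have : Real.exp (s : ℝ) = Real.exp 1 ^ s := by
      rw [← Real.exp_nat_mul, mul_one]
    rw [this]
    exact pow_le_pow_left₀ (Real.exp_pos 1).le (by linarith [Real.exp_one_lt_d9]) s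
  have hs' : (0 : ℝ) < s := by exact_mod_cast hs
  refine h1.trans ?_
  have hf : (0 : ℝ) < s.factorial := by exact_mod_cast Nat.factorial_pos s
  have e : (3 * N / s : ℝ) ^ s = (3 : ℝ) ^ s * ((N : ℝ) ^ s / (s : ℝ) ^ s) := by
    rw [div_pow, mul_pow]; ring
  rw [e]
  calc (N : ℝ) ^ s / (s.factorial : ℝ)
      = (s : ℝ) ^ s / (s.factorial : ℝ) * ((N : ℝ) ^ s / (s : ℝ) ^ s) := by
        field_simp
    _ ≤ _ := by
        apply mul_le_mul_of_nonneg_right h2 (by positivity)

lemma term_le (N s d r j : ℕ) (hN : 0 < N) (hd : 0 < d) (hs : 0 < s)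
    (hr : r = d * (3 * 2 ^ (j + 1) * d * 2 ^ (j + 3)) ^ 4) (hsr : s * r ≤ N) :
    ∃ y : ℝ, 0 ≤ y ∧ y ≤ 1 ∧ y ^ 4 = (s : ℝ) * d / N ∧
      (N.choose s : ℝ) * (2 ^ (j + 1) * y ^ 5) ^ s ≤ (1 / 2 ^ (j + 3)) ^ s := by
  have hN' : (0 : ℝ) < N := by exact_mod_cast hN
  have hd' : (0 : ℝ) < d := by exact_mod_cast hd
  have hs' : (0 : ℝ) < s := by exact_mod_cast hs
  set K : ℝ := 3 * 2 ^ (j + 1) * d * 2 ^ (j + 3) with hK
  have hKpos : 0 < K := by positivity
  set q : ℝ := (s : ℝ) * d / N with hq
  have hq0 : 0 ≤ q := by positivity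
  have hy4 : (Real.sqrt (Real.sqrt q)) ^ 4 = q := by
    have : (Real.sqrt (Real.sqrt q)) ^ 4 = ((Real.sqrt (Real.sqrt q)) ^ 2) ^ 2 := by ring
    rw [this, Real.sq_sqrt (Real.sqrt_nonneg _), Real.sq_sqrt hq0]
  set y : ℝ := Real.sqrt (Real.sqrt q) with hy
  have hy0 : 0 ≤ y := Real.sqrt_nonneg _
  have hqK : q ≤ (1 / K) ^ 4 := by
    have h1 : (s : ℝ) * (d * K ^ 4) ≤ N := by
      have : ((s * r : ℕ) : ℝ) ≤ (N : ℝ) := by exact_mod_cast hsr
      rw [hr] at this
      push_cast at this
      exact this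
    rw [hq, div_le_iff₀ hN', one_div, inv_pow, ← div_eq_inv_mul, le_div_iff₀ (by positivity)]
    linarith
  have hyK : y ≤ 1 / K := by
    have h2 : y ^ 4 ≤ (1 / K) ^ 4 := by rw [hy4]; exact hqK
    exact le_of_pow_le_pow_left₀ (by norm_num) (by positivity) h2
  have hK1 : 1 ≤ K := by
    have h3 : (1 : ℝ) ≤ d := by exact_mod_cast hd
    have h4 : (1 : ℝ) ≤ 2 ^ (j + 1) := one_le_pow₀ (by norm_num)
    have h5 : (1 : ℝ) ≤ 2 ^ (j + 3) := one_le_pow₀ (by norm_num)
    rw [hK]
    nlinarith [mul_le_mul h4 h3 (by norm_num) (by linarith : (0:ℝ) ≤ 2 ^ (j+1)),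
      mul_pos (mul_pos (by positivity : (0:ℝ) < 2 ^ (j+1)) hd') (by positivity : (0:ℝ) < 2 ^ (j+3))]
  have hy1 : y ≤ 1 := by
    refine hyK.trans ?_
    rw [div_le_one hKpos]
    exact hK1
  have hypos : 0 < y := by
    rw [hy]
    apply Real.sqrt_pos.2
    apply Real.sqrt_pos.2
    rw [hq]; positivity
  refine ⟨y, hy0, hy1, hy4, ?_⟩
  have hA : (N.choose s : ℝ) * (2 ^ (j + 1) * y ^ 5) ^ s ≤
      (3 * N / s) ^ s * (2 ^ (j + 1) * y ^ 5) ^ s :=
    mul_le_mul_of_nonneg_right (choose_le N s hs) (by positivity)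
  refine hA.trans ?_
  rw [← mul_pow]
  apply pow_le_pow_left₀ (by positivity)
  have e1 : (3 * N / s : ℝ) * (2 ^ (j + 1) * y ^ 5) = 3 * 2 ^ (j + 1) * d * y := by
    have h6 : (N : ℝ) / s = d / y ^ 4 := by
      rw [hy4, hq]
      field_simp
    have : (3 * N / s : ℝ) = 3 * (N / s) := by ring
    rw [this, h6]
    field_simp
  rw [e1]
  calc 3 * 2 ^ (j + 1) * d * y ≤ 3 * 2 ^ (j + 1) * d * (1 / K) := by
        apply mul_le_mul_of_nonneg_left hyK (by positivity)
    _ = 1 / 2 ^ (j + 3) := by
        rw [hK]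
        field_simp

lemma geom_le (N j : ℕ) :
    ∑ s ∈ Finset.range (N + 1), (if 0 < s then ((1 : ℝ) / 2 ^ (j + 3)) ^ s else 0) ≤
      1 / 2 ^ (j + 2) := by
  set q : ℝ := (1 : ℝ) / 2 ^ (j + 3) with hq
  have hq0 : 0 < q := by positivity
  have hq1 : q ≤ 1 / 8 := by
    rw [hq, pow_add]
    have : (1 : ℝ) ≤ 2 ^ j := one_le_pow₀ (by norm_num)
    rw [div_le_div_iff₀ (by positivity) (by norm_num)]
    nlinarith
  have key : ∀ n : ℕ, ∑ s ∈ Finset.range (n + 1), (if 0 < s then q ^ s else 0) ≤
      2 * q - 2 * (q ^ n * q) := by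
    intro n
    induction n with
    | zero => simp
    | succ n ih =>
      rw [Finset.sum_range_succ, if_pos (Nat.succ_pos n)]
      have h1 : 0 < q ^ n := by positivity
      have h2 : q ^ (n + 1) = q ^ n * q := pow_succ q n
      rw [h2]
      nlinarith [mul_pos h1 hq0, mul_pos (mul_pos h1 hq0) hq0]
  have h3 := key N
  have h4 : 0 < q ^ N * q := by positivity
  have h5 : 2 * q = 1 / 2 ^ (j + 2) := by
    rw [hq]
    have : (2 : ℝ) ^ (j + 3) = 2 ^ (j + 2) * 2 := by ring
    rw [this]
    field_simp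
  rw [← h5]
  linarith

/-- There is a system of functions with few repeated values on all small sets. -/
theorem exists_good (m N : ℕ) (d r : ℕ → ℕ) (hN : 0 < N) (hd : ∀ i, 0 < d i)
    (hmono : Monotone d) (hdiv : ∀ i < m, d i ∣ N)
    (hr : ∀ j, r j = d j * (3 * 2 ^ (j + 1) * d j * 2 ^ (j + 3)) ^ 4) :
    ∃ φ : (i : Fin m) → Fin N → Fin (N / d i), ∀ j : Fin m, ∀ S : Finset (Fin N), S.Nonempty →
      S.card * r j ≤ N → 4 * repSum φ j S < 5 * S.card := by
  classical
  by_contra hcon
  push Not at hcon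
  set b : Fin m → ℕ := fun i => N / d i with hb
  have hbpos : ∀ i, 0 < b i := fun i =>
    Nat.div_pos (Nat.le_of_dvd hN (hdiv i i.2)) (hd i)
  have hbreal : ∀ i : Fin m, (b i : ℝ) = (N : ℝ) / d i := by
    intro i
    rw [hb]
    simp only
    rw [Nat.cast_div (hdiv i i.2) (by exact_mod_cast (hd i).ne')]
  have hbj : ∀ j i : Fin m, i ≤ j → b j ≤ b i := by
    intro j i hij
    exact Nat.div_le_div_left (hmono hij) (hd i)
  set Tot : ℝ := ∏ i, (b i : ℝ) ^ N with hTot
  have hTotpos : 0 < Tot := Finset.prod_pos fun i _ => by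
    have := hbpos i
    positivity
  have hcardall : ((univ : Finset ((i : Fin m) → Fin N → Fin (b i))).card : ℝ) = Tot := by
    rw [Finset.card_univ, Fintype.card_pi]
    push_cast
    rw [hTot]
    apply Finset.prod_congr rfl
    intro i _
    rw [Fintype.card_fun, Fintype.card_fin, Fintype.card_fin]
    push_cast
    rfl
  let Sm : Fin m → Finset (Finset (Fin N)) := fun j =>
    univ.filter fun S => 0 < S.card ∧ S.card * r j ≤ N
  have hcover : (univ : Finset ((i : Fin m) → Fin N → Fin (b i))) ⊆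
      univ.biUnion fun j : Fin m => (Sm j).biUnion fun S =>
        univ.filter fun φ : (i : Fin m) → Fin N → Fin (b i) => 5 * S.card ≤ 4 * repSum φ j S := by
    intro φ _
    obtain ⟨j, S, h1, h2, h3⟩ := hcon φ
    simp only [mem_biUnion, mem_univ, true_and, Sm, mem_filter]
    exact ⟨j, S, ⟨h1.card_pos, h2⟩, h3⟩
  have hj : ∀ j : Fin m, (((Sm j).biUnion fun S =>
        univ.filter fun φ : (i : Fin m) → Fin N → Fin (b i) =>
          5 * S.card ≤ 4 * repSum φ j S).card : ℝ) ≤ Tot * (1 / 2 ^ (j.val + 2)) := by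
    intro j
    have h1 : ∀ S ∈ Sm j, ((univ.filter fun φ : (i : Fin m) → Fin N → Fin (b i) =>
          5 * S.card ≤ 4 * repSum φ j S).card : ℝ) * (N.choose S.card : ℝ) ≤
          Tot * (1 / 2 ^ (j.val + 3)) ^ S.card := by
      intro S hS
      simp only [Sm, mem_filter, mem_univ, true_and] at hS
      obtain ⟨y, hy0, hy1, hy4, hle⟩ := term_le N S.card (d j) (r j) j hN (hd j) hS.1 (hr j) hS.2
      have h2 := count_bad_one b hbpos j (fun i hi => hbj j i hi) S y hy0 hy1 (by
        rw [hy4, hbreal j]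
        have : (0 : ℝ) < d j := by exact_mod_cast hd j
        have : (0 : ℝ) < N := by exact_mod_cast hN
        field_simp)
      calc _ ≤ (Tot * (2 ^ (j.val + 1) * y ^ 5) ^ S.card) * (N.choose S.card : ℝ) := by
            apply mul_le_mul_of_nonneg_right h2 (by positivity)
        _ = Tot * ((N.choose S.card : ℝ) * (2 ^ (j.val + 1) * y ^ 5) ^ S.card) := by ring
        _ ≤ _ := by
            apply mul_le_mul_of_nonneg_left hle hTotpos.le
    have h2 : ∀ S ∈ Sm j, ((univ.filter fun φ : (i : Fin m) → Fin N → Fin (b i) =>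
          5 * S.card ≤ 4 * repSum φ j S).card : ℝ) ≤
          Tot * ((if 0 < S.card then ((1 : ℝ) / 2 ^ (j.val + 3)) ^ S.card else 0) /
            (N.choose S.card : ℝ)) := by
      intro S hS
      have h3 := h1 S hS
      simp only [Sm, mem_filter, mem_univ, true_and] at hS
      have hSN : S.card ≤ N := by simpa using Finset.card_le_univ S
      have hch : (0 : ℝ) < (N.choose S.card : ℝ) := by
        exact_mod_cast Nat.choose_pos hSN
      rw [if_pos hS.1, mul_div_assoc', le_div_iff₀ hch]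
      exact h3
    calc (((Sm j).biUnion fun S =>
        univ.filter fun φ : (i : Fin m) → Fin N → Fin (b i) =>
          5 * S.card ≤ 4 * repSum φ j S).card : ℝ)
        ≤ ∑ S ∈ Sm j, ((univ.filter fun φ : (i : Fin m) → Fin N → Fin (b i) =>
          5 * S.card ≤ 4 * repSum φ j S).card : ℝ) := by
          exact_mod_cast card_biUnion_le
      _ ≤ ∑ S ∈ Sm j, Tot * ((if 0 < S.card then ((1 : ℝ) / 2 ^ (j.val + 3)) ^ S.card else 0) /
            (N.choose S.card : ℝ)) := Finset.sum_le_sum h2
      _ ≤ ∑ S : Finset (Fin N), Tot *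
            ((if 0 < S.card then ((1 : ℝ) / 2 ^ (j.val + 3)) ^ S.card else 0) /
            (N.choose S.card : ℝ)) := by
          apply Finset.sum_le_sum_of_subset_of_nonneg (Finset.subset_univ _)
          intro S _ _
          apply mul_nonneg hTotpos.le
          apply div_nonneg _ (by positivity)
          split_ifs <;> positivity
      _ = Tot * ∑ s ∈ Finset.range (N + 1),
            (if 0 < s then ((1 : ℝ) / 2 ^ (j.val + 3)) ^ s else 0) := by
          rw [← Finset.mul_sum]
          congr 1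
          rw [← Finset.powerset_univ,
            Finset.sum_powerset_apply_card (fun s => (if 0 < s then
              ((1 : ℝ) / 2 ^ (j.val + 3)) ^ s else 0) / (N.choose s : ℝ))]
          rw [Finset.card_univ, Fintype.card_fin]
          apply Finset.sum_congr rfl
          intro s hs
          rw [nsmul_eq_mul, mul_div_cancel₀]
          have : s ≤ N := by
            have := Finset.mem_range.1 hs
            omega
          exact_mod_cast (Nat.choose_pos this).ne'
      _ ≤ Tot * (1 / 2 ^ (j.val + 2)) := by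
          apply mul_le_mul_of_nonneg_left (geom_le N j) hTotpos.le
  have hfin : Tot ≤ Tot * ∑ j : Fin m, (1 : ℝ) / 2 ^ (j.val + 2) := by
    rw [← hcardall]
    calc ((univ : Finset ((i : Fin m) → Fin N → Fin (b i))).card : ℝ)
        ≤ ((univ.biUnion fun j : Fin m => (Sm j).biUnion fun S =>
        univ.filter fun φ : (i : Fin m) → Fin N → Fin (b i) =>
          5 * S.card ≤ 4 * repSum φ j S).card : ℝ) := by
          exact_mod_cast card_le_card hcover
      _ ≤ ∑ j : Fin m, (((Sm j).biUnion fun S =>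
        univ.filter fun φ : (i : Fin m) → Fin N → Fin (b i) =>
          5 * S.card ≤ 4 * repSum φ j S).card : ℝ) := by
          exact_mod_cast card_biUnion_le
      _ ≤ ∑ j : Fin m, Tot * (1 / 2 ^ (j.val + 2)) := Finset.sum_le_sum fun j _ => hj j
      _ = _ := by rw [← Finset.mul_sum, hcardall]
  have hgeo : ∑ j : Fin m, (1 : ℝ) / 2 ^ (j.val + 2) ≤ 1 / 2 := by
    rw [Fin.sum_univ_eq_sum_range (fun j => (1 : ℝ) / 2 ^ (j + 2))]
    have key : ∀ n : ℕ, ∑ j ∈ Finset.range n, (1 : ℝ) / 2 ^ (j + 2) = 1 / 2 - 1 / 2 ^ (n + 1) := by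
      intro n
      induction n with
      | zero => simp
      | succ n ih =>
        rw [Finset.sum_range_succ, ih]
        have : (2 : ℝ) ^ (n + 1 + 1) = 2 ^ (n + 1) * 2 := by ring
        rw [this]
        field_simp
        ring
    rw [key m]
    have : (0 : ℝ) < 1 / 2 ^ (m + 1) := by positivity
    linarith
  nlinarith

end Pool.Agent.K6.H54.Rand
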